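import Pool.Agent.H56.ER2.Targets
import Pool.Agent.H48.ER.Lib

/-!
# MP_816b90_co: row (AH), the hole of the two paths
-/

set_option autoImplicit false

open Pool.Agent.H48.ER Pool.Agent.H52.ER2 Pool.Agent.H66.ER2 Pool.Agent.H56.ER2

namespace Pool.Agent.H13.ER2

/-- a segment of a path in function form -/
theorem sub_seg {V : Type} {G : SimpleGraph V} {n : ℕ} {g : ℕ → V} (h : PF G n g) {i j : ℕ}
    (hij : i ≤ j) (hj : j ≤ n) : IP G (j - i) (g i) (g j) (seg g i j) := by
  refine ⟨fun k => g (i + k), rfl, ?_, ?_, ?_, ?_⟩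
  · show g (i + (j - i)) = g j
    congr 1
    omega
  · intro a b ha hb e
    have := h.inj (i + a) (i + b) (by omega) (by omega) e
    omega
  · intro a b ha hb
    have := h.adj (i + a) (i + b) (by omega) (by omega)
    show G.Adj (g (i + a)) (g (i + b)) ↔ _
    rw [this]
    omega
  · ext w
    constructor
    · rintro ⟨k, h1, h2, rfl⟩
      exact ⟨k - i, by omega, by show g (i + (k - i)) = g k; congr 1; omega⟩
    · rintro ⟨k, h1, rfl⟩
      exact ⟨i + k, by omega, by omega, rfl⟩

/-- (AH) the hole of the two paths -/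
theorem pf_AH : T_AH := by
  intro V G v n z p q y x i j k h
  have i1 := h.i1
  have ip := h.ip
  have j1 := h.j1
  have jk := h.jk
  have kq := h.kq
  have py := h.py
  have px := h.px
  have iy : ∀ a b, a ≤ p → b ≤ p → (y a = y b ↔ a = b) := fun a b ha hb =>
    ⟨py.inj a b ha hb, fun e => by rw [e]⟩
  have ix : ∀ a b, a ≤ q → b ≤ q → (x a = x b ↔ a = b) := fun a b ha hb =>
    ⟨px.inj a b ha hb, fun e => by rw [e]⟩
  have p1 : IP G (i - 1) (y 1) (y i) (seg y 1 i) := sub_seg py i1 (by omega)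
  have p2 : IP G (j - 1) (x 1) (x j) (seg x 1 j) := sub_seg px j1 (by omega)
  have hd : Disjoint (seg y 1 i) (seg x 1 j) := by
    rw [Set.disjoint_left]
    rintro w ⟨e, e1, e2, rfl⟩ ⟨l, l1, l2, hl⟩
    exact h.dis e e2 l (by omega) hl.symm
  have he : XE G (seg y 1 i) (seg x 1 j) (y i) (x j) := by
    rintro u ⟨e, e1, e2, rfl⟩ w ⟨l, l1, l2, rfl⟩
    rw [iy e i (by omega) (by omega), ix l j (by omega) (by omega)]
    constructor
    · intro ha
      have e3 : e = i := by
        by_contra hne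
        exact h.pre e e1 (by omega) l (by omega) ha
      subst e3
      refine ⟨rfl, ?_⟩
      by_contra hne
      exact h.lo l (by omega) ha
    · rintro ⟨rfl, rfl⟩
      exact h.cj
  have hP := p1.append p2.rev hd he
  have hlen : i - 1 + (j - 1) + 1 = i + j - 1 := by omega
  rw [hlen] at hP
  refine ⟨hP, by omega, ?_, ?_, ?_, ?_, ?_, ?_, ?_⟩
  · rintro (⟨e, e1, e2, e3⟩ | ⟨l, l1, l2, l3⟩)
    · have := (iy e 0 (by omega) (by omega)).1 e3
      omega
    · exact h.dis 0 (by omega) l (by omega) l3.symm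
  · rintro (⟨e, e1, e2, e3⟩ | ⟨l, l1, l2, l3⟩)
    · exact h.dis e e2 0 (by omega) e3
    · have := (ix l 0 (by omega) (by omega)).1 l3
      omega
  · exact (h.ny 0 (by omega)).2.2 rfl
  · rintro u (⟨e, e1, e2, rfl⟩ | ⟨l, l1, l2, rfl⟩)
    · rw [py.adj 0 e (by omega) (by omega), iy e 1 (by omega) (by omega)]
      omega
    · constructor
      · intro ha
        have := (h.ny l (by omega)).2.1 ha
        omega
      · intro e
        exact absurd e.symm (h.dis 1 i1 l (by omega))
  · rintro u (⟨e, e1, e2, rfl⟩ | ⟨l, l1, l2, rfl⟩)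
    · constructor
      · intro ha
        have := (h.nx e (by omega)).2.1 ha
        omega
      · intro e'
        exact absurd e' (h.dis e e2 1 (by omega))
    · rw [px.adj 0 l (by omega) (by omega), ix l 1 (by omega) (by omega)]
      omega
  · rintro (⟨e, e1, e2, e3⟩ | ⟨l, l1, l2, l3⟩)
    · exact h.vy e (by omega) e3
    · exact h.vx l (by omega) l3
  · rintro (⟨e, e1, e2, e3⟩ | ⟨l, l1, l2, l3⟩)
    · exact h.zy e (by omega) e3
    · exact h.zx l (by omega) l3

end Pool.Agent.H13.ER2
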