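import Pool.Agent.H66.ER2.Targets

/-!
# MP_816b90_co: row (ASD), attachments of the end of a path
-/

set_option autoImplicit false

open Pool.Agent.H48.ER Pool.Agent.H52.ER2 Pool.Agent.H66.ER2

namespace Pool.Agent.H13.ER2

/-- pyramids with three explicit paths -/
theorem pyr3 (hPYR : T_PYR) {V : Type} {G : SimpleGraph V} {c b1 b2 b3 : V} {m1 m2 m3 : ℕ}
    {R1 R2 R3 : Set V} (hG : NOH G) (p1 : IP G m1 c b1 R1) (p2 : IP G m2 c b2 R2)
    (p3 : IP G m3 c b3 R3) (o1 : 1 ≤ m1) (o2 : 1 ≤ m2) (o3 : 1 ≤ m3)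
    (h12 : ¬ (m1 = 1 ∧ m2 = 1)) (h13 : ¬ (m1 = 1 ∧ m3 = 1)) (h23 : ¬ (m2 = 1 ∧ m3 = 1))
    (x12 : ∀ u ∈ R1, ∀ v ∈ R2, u ≠ c → v ≠ c → u ≠ v ∧ (G.Adj u v ↔ u = b1 ∧ v = b2))
    (x13 : ∀ u ∈ R1, ∀ v ∈ R3, u ≠ c → v ≠ c → u ≠ v ∧ (G.Adj u v ↔ u = b1 ∧ v = b3))
    (x23 : ∀ u ∈ R2, ∀ v ∈ R3, u ≠ c → v ≠ c → u ≠ v ∧ (G.Adj u v ↔ u = b2 ∧ v = b3)) :
    False := by
  have sw : ∀ {R T : Set V} {x y : V},
      (∀ u ∈ R, ∀ v ∈ T, u ≠ c → v ≠ c → u ≠ v ∧ (G.Adj u v ↔ u = x ∧ v = y)) →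
      ∀ u ∈ T, ∀ v ∈ R, u ≠ c → v ≠ c → u ≠ v ∧ (G.Adj u v ↔ u = y ∧ v = x) := by
    intro R T x y h u hu v hv huc hvc
    obtain ⟨h1, h2⟩ := h v hv u hu hvc huc
    exact ⟨h1.symm, by rw [G.adj_comm, h2]; exact And.comm⟩
  refine hPYR V G c ![b1, b2, b3] ![m1, m2, m3] ![R1, R2, R3] hG ?_ ?_ ?_ ?_
  · intro i
    fin_cases i
    · exact p1
    · exact p2
    · exact p3
  · intro i
    fin_cases i
    · exact o1
    · exact o2
    · exact o3
  · intro i j hij
    fin_cases i <;> fin_cases j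
    · exact absurd rfl hij
    · exact h12
    · exact h13
    · exact fun h => h12 ⟨h.2, h.1⟩
    · exact absurd rfl hij
    · exact h23
    · exact fun h => h13 ⟨h.2, h.1⟩
    · exact fun h => h23 ⟨h.2, h.1⟩
    · exact absurd rfl hij
  · intro i j hij
    fin_cases i <;> fin_cases j
    · exact absurd rfl hij
    · exact x12
    · exact x13
    · exact sw x12
    · exact absurd rfl hij
    · exact x23
    · exact sw x13
    · exact sw x23
    · exact absurd rfl hij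

/-- (ASD) attachments of the end of such a path -/
theorem pf_ASD (hPYR : T_PYR) (hHTR : T_HTR) : T_ASD := by
  intro V G l n m a1 c a2 b2 a3 b3 D P Q hG h
  have hcD : c ∈ D := h.ipD.right_mem
  have ha1D : a1 ∈ D := h.ipD.left_mem
  have ha1c : a1 ≠ c := h.ipD.ne h.hl
  have hcPQ : c ∉ P ∪ Q := fun e => Set.disjoint_left.1 h.dis hcD e
  have ha2 : a2 ∈ P ∪ Q := Or.inl h.cy.ipP.left_mem
  have ha3 : a3 ∈ P ∪ Q := Or.inr h.cy.ipQ.left_mem
  rcases hHTR V G n m c a2 b2 a3 b3 P Q h.cy hcPQ h.see with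
    ⟨g, hg, hc, i, j, R1, R2, p1, p2, hij, hun, hint, hadj⟩ | h2 |
    ⟨g, g', i, j, R1, R2, p1, p2, s1, s2, hdis, hadj, hc1, hc2⟩
  · by_cases e2 : g = a2
    · subst e2
      exact Or.inl hc
    by_cases e3 : g = a3
    · subst e3
      exact Or.inr (Or.inl hc)
    exfalso
    have hgD : g ∉ D := fun e => Set.disjoint_left.1 h.dis e hg
    have i1 : 1 ≤ i := by
      rcases Nat.eq_zero_or_pos i with e | e
      · subst e
        exact absurd p1.eq_of_zero.1.symm e2
      · exact e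
    have j1 : 1 ≤ j := by
      rcases Nat.eq_zero_or_pos j with e | e
      · subst e
        exact absurd p2.eq_of_zero.1.symm e3
      · exact e
    have n1 : 1 ≤ n := h.cy.hn.pos
    have m1 : 1 ≤ m := h.cy.hm.pos
    have gD : ∀ w ∈ D, G.Adj g w ↔ w = c := by
      intro w hw
      constructor
      · intro ha
        by_contra hne
        rcases (h.on w hw hne g hg ha.symm).2 with e | e
        · exact e2 e
        · exact e3 e
      · rintro rfl
        exact ((hc g hg).2 rfl).symm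
    have pD : IP G (l + 1) g a1 (insert g D) := h.ipD.rev.cons hgD gD
    have sub1 : R1 ⊆ P ∪ Q := fun x hx => hun ▸ Or.inl hx
    have sub2 : R2 ⊆ P ∪ Q := fun x hx => hun ▸ Or.inr hx
    have key : ∀ u, u ∈ R1 → u ∈ R2 → u = g := by
      intro u hu1 hu2
      have : u ∈ R1 ∩ R2 := ⟨hu1, hu2⟩
      rw [hint] at this
      exact this
    have hl := h.hl
    refine pyr3 hPYR hG p1.rev p2.rev pD i1 j1 (by omega) (by omega) (by omega) (by omega)
      ?_ ?_ ?_
    · intro u hu v hv hug hvg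
      refine ⟨fun e => hug (key u hu (e ▸ hv)), ?_⟩
      exact hadj u hu v hv hug hvg
    · intro u hu v hv hug hvg
      have hvD : v ∈ D := hv.resolve_left hvg
      refine ⟨fun e => Set.disjoint_left.1 h.dis hvD (e ▸ sub1 hu), ?_⟩
      constructor
      · intro ha
        by_cases hvc : v = c
        · subst hvc
          exact absurd ((hc u (sub1 hu)).1 ha.symm) hug
        · obtain ⟨e1, e | e⟩ := h.on v hvD hvc u (sub1 hu) ha.symm
          · exact ⟨e, e1⟩
          · exact absurd (key u hu (e ▸ p2.left_mem)) hug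
      · rintro ⟨rfl, rfl⟩
        exact h.a12.symm
    · intro u hu v hv hug hvg
      have hvD : v ∈ D := hv.resolve_left hvg
      refine ⟨fun e => Set.disjoint_left.1 h.dis hvD (e ▸ sub2 hu), ?_⟩
      constructor
      · intro ha
        by_cases hvc : v = c
        · subst hvc
          exact absurd ((hc u (sub2 hu)).1 ha.symm) hug
        · obtain ⟨e1, e | e⟩ := h.on v hvD hvc u (sub2 hu) ha.symm
          · exact absurd (key u (e ▸ p1.left_mem) hu) hug
          · exact ⟨e, e1⟩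
      · rintro ⟨rfl, rfl⟩
        exact h.a13.symm
  · exact Or.inr (Or.inr (Or.inr h2))
  · by_cases hT : Two G c a1 a2 a3
    · exact Or.inr (Or.inr (Or.inl hT))
    exfalso
    have c1 : c ∉ R1 := fun e => hcPQ (s1 e)
    have c2 : c ∉ R2 := fun e => hcPQ (s2 e)
    have q1 : IP G (i + 1) c a2 (insert c R1) := p1.rev.cons c1 hc1
    have q2 : IP G (j + 1) c a3 (insert c R2) := p2.rev.cons c2 hc2
    have ca2 : i = 0 → G.Adj c a2 := fun e => q1.adj_iff.2 (by omega)
    have ca3 : j = 0 → G.Adj c a3 := fun e => q2.adj_iff.2 (by omega)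
    have ca1 : l = 1 → G.Adj c a1 := fun e => h.ipD.rev.adj_iff.2 e
    refine pyr3 hPYR hG q1 q2 h.ipD.rev (by omega) (by omega) h.hl ?_ ?_ ?_ ?_ ?_ ?_
    · rintro ⟨e1, e2⟩
      exact hT (Or.inr (Or.inr ⟨ca2 (by omega), ca3 (by omega)⟩))
    · rintro ⟨e1, e2⟩
      exact hT (Or.inl ⟨ca1 e2, ca2 (by omega)⟩)
    · rintro ⟨e1, e2⟩
      exact hT (Or.inr (Or.inl ⟨ca1 e2, ca3 (by omega)⟩))
    · intro u hu v hv huc hvc
      have hu1 : u ∈ R1 := hu.resolve_left huc
      have hv1 : v ∈ R2 := hv.resolve_left hvc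
      exact ⟨fun e => Set.disjoint_left.1 hdis hu1 (e ▸ hv1), hadj u hu1 v hv1⟩
    · intro u hu v hv huc hvc
      have hu1 : u ∈ R1 := hu.resolve_left huc
      refine ⟨fun e => Set.disjoint_left.1 h.dis hv (e ▸ s1 hu1), ?_⟩
      constructor
      · intro ha
        obtain ⟨e1, e | e⟩ := h.on v hv hvc u (s1 hu1) ha.symm
        · exact ⟨e, e1⟩
        · exact absurd (e ▸ p2.left_mem) (Set.disjoint_left.1 hdis hu1)
      · rintro ⟨rfl, rfl⟩
        exact h.a12.symm
    · intro u hu v hv huc hvc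
      have hu1 : u ∈ R2 := hu.resolve_left huc
      refine ⟨fun e => Set.disjoint_left.1 h.dis hv (e ▸ s2 hu1), ?_⟩
      constructor
      · intro ha
        obtain ⟨e1, e | e⟩ := h.on v hv hvc u (s2 hu1) ha.symm
        · exact absurd hu1 (Set.disjoint_left.1 hdis (e ▸ p1.left_mem))
        · exact ⟨e, e1⟩
      · rintro ⟨rfl, rfl⟩
        exact h.a13.symm

end Pool.Agent.H13.ER2
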